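import Mathlib
import Pool.Agent.L5helper73.PoiFin

/-!
# MP_d88b0b_al, Q2

The tensor products of the Poisson algebras `P_{Ωᵢ-ξᵢ}` of i.s. potentials have only finitely many
Poisson endomorphisms, in particular finitely many Poisson automorphisms.

The images of the generators lie in one finite-dimensional space, so the endomorphisms are the points
of an affine variety. The relations `{x, y} = ∂Ω/∂z` have the degree `deg Ω - 1 ≥ 3` in the
coordinates of the images on the right and the degree two on the left, so their top parts are
`∂Ω/∂z (x, y, z) = 0`; as the tensor product stays reduced over each reduced algebra, the top parts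
have only the trivial solution, so the variety has no points at infinity.
-/

set_option autoImplicit false

universe u

open scoped TensorProduct
open Pool.Agent.N1.Poi

namespace Pool.Agent.Results.MP_d88b0b_al.PoissonEndomorphismsFinite

/-- The algebra `B` with the bracket `br` has only finitely many algebra endomorphisms which preserve
the bracket. -/
def FinitelyManyEndomorphisms {k B : Type u} [Field k] [CommRing B] [Algebra k B]
    (br : B →ₗ[k] B →ₗ[k] B) : Prop :=
  {φ : B →ₐ[k] B | ∀ a b, φ (br a b) = br (φ a) (φ b)}.Finite

/-- The algebra `B` with the bracket `br` has only finitely many algebra automorphisms which preserve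
the bracket. -/
def FinitelyManyAutomorphisms {k B : Type u} [Field k] [CommRing B] [Algebra k B]
    (br : B →ₗ[k] B →ₗ[k] B) : Prop :=
  {φ : B ≃ₐ[k] B | ∀ a b, φ (br a b) = br (φ a) (φ b)}.Finite

/-- Let `k` be a field and let `Ω₁, …, Ω_d` be homogeneous potentials in `k[x,y,z]` with isolated
singularities, of arbitrary degrees at least four (equal degrees are allowed), and let
`ξ₁, …, ξ_d ∈ k`. Then the tensor product `⨂ᵢ k[x,y,z]/(Ωᵢ - ξᵢ)` has only finitely many Poisson
algebra endomorphisms (injective or not), and its group of Poisson algebra automorphisms is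
finite. -/
theorem result (k : Type u) [Field k] (d : ℕ) (n : Fin d → ℕ) (hn : ∀ i, 4 ≤ n i)
    (Ω : Fin d → MvPolynomial (Fin 3) k) (hΩ : ∀ i, (Ω i).IsHomogeneous (n i))
    (hiso : ∀ i, IsIsolatedSingularity (Ω i)) (ξ : Fin d → k) :
    FinitelyManyEndomorphisms
      (tensorBracket (fun i => PotQuot (Ω i) (ξ i)) fun i => potBracket (Ω i) (ξ i)) ∧
    FinitelyManyAutomorphisms
      (tensorBracket (fun i => PotQuot (Ω i) (ξ i)) fun i => potBracket (Ω i) (ξ i)) := by
  have h1 := Pool.Agent.L5helper73.PoiFin.finite_poisson (ξ := ξ) hn hΩ hiso
  refine ⟨h1, Set.Finite.of_finite_image (f := fun φ => φ.toAlgHom) (h1.subset ?_) ?_⟩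
  · rintro _ ⟨φ, hφ, rfl⟩
    exact hφ
  · intro φ _ ψ _ h
    exact AlgEquiv.ext fun x => AlgHom.congr_fun h x

end Pool.Agent.Results.MP_d88b0b_al.PoissonEndomorphismsFinite
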